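import Mathlib

/-!
# Compression of finite subsets of `G^d`, `G` a torsion-free group

For a finite set `A` of vectors of length `d` the set `cmp d A` of vectors of natural numbers is
defined by recursion: `(k, y)` belongs to it iff `y ∈ cmp (fibre of A over t)` for more than `k`
values `t` of the first coordinate.
-/

set_option autoImplicit false
open Finset
open scoped Pointwise

namespace Pool.Agent.TH360.PF

section Fib

variable {α : Type*} [DecidableEq α] {d : ℕ}

/-- the fibre of `A` over the value `t` of the first coordinate -/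
def fib (A : Finset (Fin (d + 1) → α)) (t : α) : Finset (Fin d → α) :=
  (A.filter (fun b => b 0 = t)).image Fin.tail

theorem mem_fib (A : Finset (Fin (d + 1) → α)) (t : α) (y : Fin d → α) :
    y ∈ fib A t ↔ (Fin.cons t y : Fin (d + 1) → α) ∈ A := by
  unfold fib
  rw [mem_image]
  constructor
  · rintro ⟨b, hb, rfl⟩
    rw [mem_filter] at hb
    rw [← hb.2, Fin.cons_self_tail]
    exact hb.1
  · intro h
    exact ⟨_, mem_filter.2 ⟨h, rfl⟩, Fin.tail_cons _ _⟩

/-- the values of the first coordinate -/
def heads (A : Finset (Fin (d + 1) → α)) : Finset α := A.image (fun b => b 0)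

theorem mem_heads_of_mem_fib {A : Finset (Fin (d + 1) → α)} {t : α} {y : Fin d → α}
    (h : y ∈ fib A t) : t ∈ heads A := by
  rw [mem_fib] at h
  exact mem_image.2 ⟨_, h, rfl⟩

theorem card_eq_sum_fib (A : Finset (Fin (d + 1) → α)) :
    A.card = ∑ t ∈ heads A, (fib A t).card := by
  rw [Finset.card_eq_sum_card_image (fun b => b 0) A]
  refine Finset.sum_congr rfl fun t _ => ?_
  unfold fib
  rw [Finset.card_image_of_injOn]
  intro b hb c hc h
  rw [mem_coe, mem_filter] at hb hc
  rw [← Fin.cons_self_tail b, ← Fin.cons_self_tail c, hb.2, hc.2]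
  congr 1

/-- the compression -/
def cmp : (d : ℕ) → Finset (Fin d → α) → Finset (Fin d → ℕ)
  | 0, A => A.image (fun _ _ => 0)
  | d + 1, A =>
    ((heads A).biUnion (fun t => cmp d (fib A t))).biUnion (fun y =>
      (range ((heads A).filter (fun t => y ∈ cmp d (fib A t))).card).image
        (fun k => (Fin.cons k y : Fin (d + 1) → ℕ)))

theorem mem_cmp_succ (A : Finset (Fin (d + 1) → α)) (x : Fin (d + 1) → ℕ) :
    x ∈ cmp (d + 1) A ↔
      x 0 < ((heads A).filter (fun t => Fin.tail x ∈ cmp d (fib A t))).card := by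
  rw [cmp]
  simp only [mem_biUnion, mem_image, mem_range]
  constructor
  · rintro ⟨y, -, k, hk, rfl⟩
    rw [Fin.cons_zero, Fin.tail_cons]
    exact hk
  · intro h
    have h1 : 0 < ((heads A).filter (fun t => Fin.tail x ∈ cmp d (fib A t))).card := by omega
    obtain ⟨t, ht⟩ := Finset.card_pos.1 h1
    rw [mem_filter] at ht
    exact ⟨Fin.tail x, ⟨t, ht⟩, x 0, h, Fin.cons_self_tail x⟩

theorem card_cmp (d : ℕ) (A : Finset (Fin d → α)) : (cmp d A).card = A.card := by
  induction d with
  | zero =>
    rw [cmp]
    apply Finset.card_image_of_injOn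
    intro a _ b _ _
    exact Subsingleton.elim _ _
  | succ d ih =>
    rw [cmp, Finset.card_biUnion]
    · rw [card_eq_sum_fib A]
      have h1 : ∀ y ∈ (heads A).biUnion (fun t => cmp d (fib A t)),
          ((range ((heads A).filter (fun t => y ∈ cmp d (fib A t))).card).image
            (fun k => (Fin.cons k y : Fin (d + 1) → ℕ))).card =
          ∑ t ∈ heads A, if y ∈ cmp d (fib A t) then 1 else 0 := by
        intro y _
        rw [Finset.card_image_of_injective, card_range, Finset.card_filter]
        intro k l h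
        have := congrFun h 0
        simpa using this
      rw [Finset.sum_congr rfl h1, Finset.sum_comm]
      refine Finset.sum_congr rfl fun t ht => ?_
      rw [← Finset.card_filter, ← ih (fib A t)]
      congr 1
      ext y
      rw [mem_filter, mem_biUnion]
      exact ⟨fun h => h.2, fun h => ⟨⟨t, ht, h⟩, h⟩⟩
    · intro y _ z _ hyz
      rw [Function.onFun, Finset.disjoint_left]
      intro x hx hx'
      rw [mem_image] at hx hx'
      obtain ⟨k, -, rfl⟩ := hx
      obtain ⟨l, -, h⟩ := hx'
      apply hyz
      have := congrArg Fin.tail h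
      simpa using this.symm

theorem cmp_lower (d : ℕ) (A : Finset (Fin d → α)) (x y : Fin d → ℕ) (hx : x ∈ cmp d A)
    (hy : y ≤ x) : y ∈ cmp d A := by
  induction d with
  | zero => rwa [Subsingleton.elim y x]
  | succ d ih =>
    rw [mem_cmp_succ] at hx ⊢
    refine lt_of_le_of_lt (hy 0) (lt_of_lt_of_le hx (Finset.card_le_card ?_))
    intro t ht
    rw [mem_filter] at ht ⊢
    exact ⟨ht.1, ih _ _ _ ht.2 fun i => hy i.succ⟩

theorem cmp_mono (d : ℕ) {A B : Finset (Fin d → α)} (h : A ⊆ B) : cmp d A ⊆ cmp d B := by
  induction d with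
  | zero => rw [cmp, cmp]; exact Finset.image_subset_image h
  | succ d ih =>
    intro x hx
    rw [mem_cmp_succ] at hx ⊢
    refine lt_of_lt_of_le hx (Finset.card_le_card ?_)
    intro t ht
    rw [mem_filter] at ht ⊢
    have h1 : fib A t ⊆ fib B t := by
      intro y hy
      rw [mem_fib] at hy ⊢
      exact h hy
    refine ⟨?_, ih h1 ht.2⟩
    exact Finset.image_subset_image h ht.1

theorem nonempty_of_mem_cmp {d : ℕ} {A : Finset (Fin d → α)} {x : Fin d → ℕ}
    (h : x ∈ cmp d A) : A.Nonempty := by
  rw [← Finset.card_pos, ← card_cmp, Finset.card_pos]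
  exact ⟨x, h⟩

theorem mem_heads_of_mem_cmp {A : Finset (Fin (d + 1) → α)} {t : α} {y : Fin d → ℕ}
    (h : y ∈ cmp d (fib A t)) : t ∈ heads A := by
  obtain ⟨z, hz⟩ := nonempty_of_mem_cmp h
  exact mem_heads_of_mem_fib hz

/-- a set of `k` heads over which the fibres have compressions containing `y` -/
theorem lt_of_card {A : Finset (Fin (d + 1) → α)} {x : Fin (d + 1) → ℕ} (T : Finset α)
    (hT : ∀ t ∈ T, Fin.tail x ∈ cmp d (fib A t)) (h : x 0 < T.card) : x ∈ cmp (d + 1) A := by
  rw [mem_cmp_succ]
  refine lt_of_lt_of_le h (Finset.card_le_card fun t ht => ?_)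
  rw [mem_filter]
  exact ⟨mem_heads_of_mem_cmp (hT t ht), hT t ht⟩

/-- the regular tree given by a point of the compression -/
theorem tree (d : ℕ) (A : Finset (Fin d → α)) (x : Fin d → ℕ) (hx : x ∈ cmp d A) :
    ∃ B ⊆ A, B.card = ∏ i, (x i + 1) ∧
      ∀ a ∈ B, ∀ i, ((B.filter (fun b => ∀ j < i, b j = a j)).image (fun b => b i)).card =
        x i + 1 := by
  induction d with
  | zero =>
    obtain ⟨a, ha⟩ := nonempty_of_mem_cmp hx
    refine ⟨{a}, by simpa using ha, by simp, fun _ _ i => i.elim0⟩
  | succ d ih =>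
    rw [mem_cmp_succ] at hx
    obtain ⟨T, hT, hTc⟩ := Finset.exists_subset_card_eq (Nat.succ_le_of_lt hx)
    have h1 : ∀ t, ∃ B : Finset (Fin d → α), t ∈ T → (B ⊆ fib A t ∧
        B.card = ∏ i, (Fin.tail x i + 1) ∧
        ∀ a ∈ B, ∀ i, ((B.filter (fun b => ∀ j < i, b j = a j)).image (fun b => b i)).card =
          Fin.tail x i + 1) := by
      intro t
      by_cases ht : t ∈ T
      · have h2 := hT ht
        rw [mem_filter] at h2
        obtain ⟨B, hB⟩ := ih (fib A t) (Fin.tail x) h2.2
        exact ⟨B, fun _ => hB⟩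
      · exact ⟨∅, fun h => absurd h ht⟩
    choose F hF using h1
    have hmem : ∀ b : Fin (d + 1) → α,
        b ∈ T.biUnion (fun t => (F t).image (fun y => (Fin.cons t y : Fin (d + 1) → α))) ↔
          b 0 ∈ T ∧ Fin.tail b ∈ F (b 0) := by
      intro b
      rw [mem_biUnion]
      constructor
      · rintro ⟨t, ht, h⟩
        rw [mem_image] at h
        obtain ⟨y, hy, rfl⟩ := h
        rw [Fin.cons_zero, Fin.tail_cons]
        exact ⟨ht, hy⟩
      · rintro ⟨h1, h2⟩
        exact ⟨b 0, h1, mem_image.2 ⟨Fin.tail b, h2, Fin.cons_self_tail b⟩⟩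
    have hpos : ∀ t ∈ T, (F t).Nonempty := by
      intro t ht
      rw [← Finset.card_pos, (hF t ht).2.1]
      exact Finset.prod_pos fun i _ => Nat.succ_pos _
    refine ⟨T.biUnion (fun t => (F t).image (fun y => (Fin.cons t y : Fin (d + 1) → α))),
      ?_, ?_, ?_⟩
    · intro b hb
      rw [hmem] at hb
      have h2 := (hF _ hb.1).1 hb.2
      rw [mem_fib, Fin.cons_self_tail] at h2
      exact h2
    · rw [Finset.card_biUnion]
      · have h3 : ∀ t ∈ T, ((F t).image (fun y => (Fin.cons t y : Fin (d + 1) → α))).card =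
            ∏ i, (Fin.tail x i + 1) := by
          intro t ht
          rw [← (hF t ht).2.1]
          apply Finset.card_image_of_injective
          intro y z h
          have := congrArg Fin.tail h
          simpa using this
        rw [Finset.sum_congr rfl h3, Finset.sum_const, hTc, Fin.prod_univ_succ, smul_eq_mul]
        rfl
      · intro s _ t _ hst
        rw [Function.onFun, Finset.disjoint_left]
        intro b hb hb'
        rw [mem_image] at hb hb'
        obtain ⟨y, -, rfl⟩ := hb
        obtain ⟨z, -, h⟩ := hb'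
        apply hst
        have := congrFun h 0
        simpa using this.symm
    · intro a ha i
      rw [hmem] at ha
      refine Fin.cases ?_ (fun i => ?_) i
      · have h2 : ((T.biUnion (fun t => (F t).image
            (fun y => (Fin.cons t y : Fin (d + 1) → α)))).filter
              (fun b => ∀ j < (0 : Fin (d + 1)), b j = a j)).image (fun b => b 0) = T := by
          ext t
          rw [mem_image]
          constructor
          · rintro ⟨b, hb, rfl⟩
            rw [mem_filter, hmem] at hb
            exact hb.1.1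
          · intro ht
            obtain ⟨y, hy⟩ := hpos t ht
            refine ⟨Fin.cons t y, ?_, rfl⟩
            rw [mem_filter, hmem, Fin.cons_zero, Fin.tail_cons]
            exact ⟨⟨ht, hy⟩, fun j hj => absurd hj (Fin.not_lt_zero j)⟩
        rw [h2, hTc]
      · have h2 : ((T.biUnion (fun t => (F t).image
            (fun y => (Fin.cons t y : Fin (d + 1) → α)))).filter
              (fun b => ∀ j < i.succ, b j = a j)).image (fun b => b i.succ) =
            ((F (a 0)).filter (fun b => ∀ j < i, b j = Fin.tail a j)).image (fun b => b i) := by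
          ext t
          rw [mem_image, mem_image]
          constructor
          · rintro ⟨b, hb, rfl⟩
            rw [mem_filter, hmem] at hb
            have h3 : b 0 = a 0 := hb.2 0 (Fin.succ_pos i)
            refine ⟨Fin.tail b, ?_, rfl⟩
            rw [mem_filter, ← h3]
            exact ⟨hb.1.2, fun j hj => hb.2 j.succ (Fin.succ_lt_succ_iff.2 hj)⟩
          · rintro ⟨y, hy, rfl⟩
            rw [mem_filter] at hy
            refine ⟨Fin.cons (a 0) y, ?_, by rw [Fin.cons_succ]⟩
            rw [mem_filter, hmem, Fin.cons_zero, Fin.tail_cons]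
            refine ⟨⟨ha.1, hy.1⟩, fun j => ?_⟩
            refine Fin.cases ?_ (fun j => ?_) j
            · intro _
              rw [Fin.cons_zero]
            · intro hj
              rw [Fin.cons_succ]
              exact hy.2 j (Fin.succ_lt_succ_iff.1 hj)
        rw [h2]
        exact (hF _ ha.1).2.2 _ ha.2 i

end Fib

section Add

variable {G : Type*} [AddCommGroup G] [DecidableEq G]

theorem cmp_add [IsAddTorsionFree G] (d : ℕ) (A B : Finset (Fin d → G)) (x y : Fin d → ℕ)
    (hx : x ∈ cmp d A) (hy : y ∈ cmp d B) : x + y ∈ cmp d (A + B) := by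
  induction d with
  | zero =>
    obtain ⟨a, ha⟩ := nonempty_of_mem_cmp hx
    obtain ⟨b, hb⟩ := nonempty_of_mem_cmp hy
    rw [cmp, mem_image]
    exact ⟨a + b, Finset.add_mem_add ha hb, Subsingleton.elim _ _⟩
  | succ d ih =>
    rw [mem_cmp_succ] at hx hy
    set T := (heads A).filter (fun t => Fin.tail x ∈ cmp d (fib A t)) with hT
    set U := (heads B).filter (fun t => Fin.tail y ∈ cmp d (fib B t)) with hU
    have hTn : T.Nonempty := by rw [← Finset.card_pos]; omega
    have hUn : U.Nonempty := by rw [← Finset.card_pos]; omega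
    have hcd := cauchy_davenport_of_isAddTorsionFree hTn hUn
    apply lt_of_card (T + U)
    · intro s hs
      rw [Finset.mem_add] at hs
      obtain ⟨t, ht, u, hu, rfl⟩ := hs
      rw [hT, mem_filter] at ht
      rw [hU, mem_filter] at hu
      have h1 := ih (fib A t) (fib B u) (Fin.tail x) (Fin.tail y) ht.2 hu.2
      have h2 : fib A t + fib B u ⊆ fib (A + B) (t + u) := by
        intro z hz
        rw [Finset.mem_add] at hz
        obtain ⟨a, ha, b, hb, rfl⟩ := hz
        rw [mem_fib] at ha hb ⊢
        rw [Finset.mem_add]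
        refine ⟨_, ha, _, hb, ?_⟩
        ext i
        refine Fin.cases ?_ (fun i => ?_) i <;> simp
      exact cmp_mono d h2 h1
    · rw [Pi.add_apply]
      omega

theorem cmp_neg (d : ℕ) (B : Finset (Fin d → G)) (x : Fin d → ℕ)
    (hx : x ∈ cmp d B) : x ∈ cmp d (-B) := by
  induction d with
  | zero =>
    obtain ⟨a, ha⟩ := nonempty_of_mem_cmp hx
    rw [cmp, mem_image]
    exact ⟨-a, Finset.neg_mem_neg ha, Subsingleton.elim _ _⟩
  | succ d ih =>
    rw [mem_cmp_succ] at hx
    set T := (heads B).filter (fun t => Fin.tail x ∈ cmp d (fib B t)) with hT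
    apply lt_of_card (-T)
    · intro s hs
      rw [Finset.mem_neg] at hs
      obtain ⟨t, ht, rfl⟩ := hs
      rw [hT, mem_filter] at ht
      have h1 := ih (fib B t) (Fin.tail x) ht.2
      have h2 : -(fib B t) ⊆ fib (-B) (-t) := by
        intro z hz
        rw [Finset.mem_neg] at hz
        obtain ⟨a, ha, rfl⟩ := hz
        rw [mem_fib] at ha ⊢
        rw [Finset.mem_neg]
        refine ⟨_, ha, ?_⟩
        ext i
        refine Fin.cases ?_ (fun i => ?_) i <;> simp
      exact cmp_mono d h2 h1
    · rwa [Finset.card_neg]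

end Add

end Pool.Agent.TH360.PF
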