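import Pool.Agent.TH360.PF.Cmp
import Pool.Agent.H947R2.DS.A
import Pool.Agent.H947R2.DS.One
import Pool.Agent.H947R2.DS.I
import Pool.Agent.H401R9.DS.BOX
import Pool.Agent.H331R9.DS.ORTH

/-!
# Regular trees in sets of small doubling
-/

set_option autoImplicit false
open Finset
open scoped Pointwise

namespace Pool.Agent.TH360.PF

open H947DS

variable {G : Type*} [AddCommGroup G] [DecidableEq G] [IsAddTorsionFree G]

theorem card_cmp_add {d : ℕ} (A B : Finset (Fin d → G)) :
    (cmp d A + cmp d B).card ≤ (A + B).card := by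
  rw [← card_cmp d (A + B)]
  apply Finset.card_le_card
  intro z hz
  rw [Finset.mem_add] at hz
  obtain ⟨x, hx, y, hy, rfl⟩ := hz
  exact cmp_add d A B x y hx hy

theorem cmp_neg_eq {d : ℕ} (A : Finset (Fin d → G)) : cmp d (-A) = cmp d A := by
  symm
  apply Finset.eq_of_subset_of_card_le
  · intro x hx
    exact cmp_neg d A x hx
  · rw [card_cmp, card_cmp, Finset.card_neg]

/-- natural vectors as integer vectors -/
def toZ {d : ℕ} (x : Fin d → ℕ) : Fin d → ℤ := fun i => (x i : ℤ)

theorem toZ_injective {d : ℕ} : Function.Injective (toZ (d := d)) := by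
  intro x y h
  funext i
  have := congrFun h i
  unfold toZ at this
  exact_mod_cast this

/-- A lower set of small doubling contains a large box with few nontrivial sides. -/
theorem lower_box {d : ℕ} (C : Finset (Fin d → ℕ)) (hC : C.Nonempty)
    (hlow : ∀ x ∈ C, ∀ y, y ≤ x → y ∈ C) (K : ℝ) (hK : ((C + C).card : ℝ) ≤ K * C.card) :
    ∃ x ∈ C, (2 : ℝ) ^ (univ.filter (fun i => x i ≠ 0)).card ≤ 2 * K ∧
      (C.card : ℝ) ≤ 256 * K ^ 7 * ∏ i, ((x i : ℝ) + 1) := by
  have hBOX : St_BOX := BOX_proof (A_proof (ONE_proof W_proof)) I_proof ORTH_proof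
  have hcard : (C.image toZ).card = C.card := Finset.card_image_of_injective _ toZ_injective
  have hadd : C.image toZ + C.image toZ = (C + C).image toZ := by
    ext z
    simp only [Finset.mem_add, Finset.mem_image]
    constructor
    · rintro ⟨_, ⟨x, hx, rfl⟩, _, ⟨y, hy, rfl⟩, rfl⟩
      exact ⟨x + y, ⟨x, hx, y, hy, rfl⟩, by funext i; simp [toZ]⟩
    · rintro ⟨_, ⟨x, hx, y, hy, rfl⟩, rfl⟩
      exact ⟨toZ x, ⟨x, hx, rfl⟩, toZ y, ⟨y, hy, rfl⟩, by funext i; simp [toZ]⟩
  have hcard2 : (C.image toZ + C.image toZ).card = (C + C).card := by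
    rw [hadd]
    exact Finset.card_image_of_injective _ toZ_injective
  obtain ⟨z, hz, hz1, hz2⟩ := hBOX d (C.image toZ) K (hC.image _) (by
    intro x hx y hy
    rw [mem_image] at hx
    obtain ⟨x, hx, rfl⟩ := hx
    rw [mem_image]
    refine ⟨fun i => (y i).toNat, hlow x hx _ ?_, ?_⟩
    · intro i
      have h := hy i
      unfold toZ at h
      change (y i).toNat ≤ x i
      omega
    · funext i
      have h := hy i
      unfold toZ at h ⊢
      change (((y i).toNat : ℕ) : ℤ) = y i
      omega) (by rw [hcard, hcard2]; exact hK)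
  rw [mem_image] at hz
  obtain ⟨x, hx, rfl⟩ := hz
  refine ⟨x, hx, ?_, ?_⟩
  · have h : nzZ (toZ x) = (univ.filter (fun i => x i ≠ 0)).card := by
      unfold nzZ toZ
      congr 1
      ext i
      simp
    rw [← h]
    exact hz1
  · rw [hcard] at hz2
    refine hz2.trans (le_of_eq ?_)
    congr 1
    apply Finset.prod_congr rfl
    intro i _
    unfold toZ
    rw [abs_of_nonneg (by positivity)]
    push_cast
    rfl

theorem main {d : ℕ} (A : Finset (Fin d → G)) (hA : A.Nonempty) (K : ℝ)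
    (hK : ((A + A).card : ℝ) ≤ K * A.card ∨ ((A - A).card : ℝ) ≤ K * A.card) :
    ∃ (B : Finset (Fin d → G)) (n : Fin d → ℕ), B ⊆ A ∧ (∀ i, 1 ≤ n i) ∧
      B.card = ∏ i, n i ∧ (A.card : ℝ) ≤ 256 * K ^ 7 * B.card ∧
      (2 : ℝ) ^ (univ.filter (fun i => n i ≠ 1)).card ≤ 2 * K ∧
      ∀ a ∈ B, ∀ i,
        ((B.filter (fun b => ∀ j < i, b j = a j)).image (fun b => b i)).card = n i := by
  have hC : (cmp d A).Nonempty := by
    rw [← Finset.card_pos, card_cmp, Finset.card_pos]; exact hA
  have hCK : ((cmp d A + cmp d A).card : ℝ) ≤ K * (cmp d A).card := by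
    rw [card_cmp]
    rcases hK with hK | hK
    · refine le_trans ?_ hK
      exact_mod_cast card_cmp_add A A
    · refine le_trans ?_ hK
      have h := card_cmp_add A (-A)
      rw [cmp_neg_eq, ← sub_eq_add_neg] at h
      exact_mod_cast h
  obtain ⟨x, hx, hx1, hx2⟩ := lower_box (cmp d A) hC (fun x hx y hy => cmp_lower d A x y hx hy)
    K hCK
  obtain ⟨B, hB, hBc, hBt⟩ := tree d A x hx
  refine ⟨B, fun i => x i + 1, hB, fun i => Nat.succ_le_succ (Nat.zero_le _), hBc, ?_, ?_, hBt⟩
  · rw [card_cmp] at hx2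
    rw [hBc]
    push_cast
    exact hx2
  · have h : (univ.filter (fun i => x i + 1 ≠ 1)) = univ.filter (fun i => x i ≠ 0) := by
      apply Finset.filter_congr
      intro i _
      omega
    rw [h]
    exact hx1

end Pool.Agent.TH360.PF
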